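import Pool.Agent.P.MP_dee2e2_lc.X.St

namespace Pool.Agent.P.MP_dee2e2_lc.X
open Finset
open scoped Classical

variable {k : ℕ} {P : Type}

lemma full (Fr : Fin k → Prop) (tok Y : Fin k → Option P)
    (hinj : ∀ a b, Fr a → Fr b → tok a = tok b → a = b)
    (hex : ∀ a, Fr a → ∃ b, Fr b ∧ Y b = tok a) :
    (∀ b, Fr b → ∃ a, Fr a ∧ Y b = tok a) ∧ (∀ b b', Fr b → Fr b' → Y b = Y b' → b = b') := by
  choose g hg1 hg2 using hex
  let G : {a // Fr a} → {a // Fr a} := fun a => ⟨g a.1 a.2, hg1 a.1 a.2⟩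
  have hG : Function.Injective G := by
    intro a b h
    have h1 : g a.1 a.2 = g b.1 b.2 := congrArg Subtype.val h
    apply Subtype.ext
    apply hinj _ _ a.2 b.2
    rw [← hg2 a.1 a.2, ← hg2 b.1 b.2, h1]
  have hS := Finite.injective_iff_surjective.1 hG
  constructor
  · intro b hb
    obtain ⟨a, ha⟩ := hS ⟨b, hb⟩
    have h1 : g a.1 a.2 = b := congrArg Subtype.val ha
    exact ⟨a.1, a.2, by rw [← h1, hg2]⟩
  · intro b b' hb hb' h
    obtain ⟨a, ha⟩ := hS ⟨b, hb⟩
    obtain ⟨a', ha'⟩ := hS ⟨b', hb'⟩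
    have h1 : g a.1 a.2 = b := congrArg Subtype.val ha
    have h2 : g a'.1 a'.2 = b' := congrArg Subtype.val ha'
    have h3 : a.1 = a'.1 := by
      apply hinj _ _ a.2 a'.2
      rw [← hg2 a.1 a.2, ← hg2 a'.1 a'.2, h1, h2, h]
    have h4 : a = a' := Subtype.ext h3
    subst h4
    rw [← h1, ← h2]

abbrev free (S : St k P) (a : Fin k) : Prop := S.kd a ≠ .DP ∧ S.kd a ≠ .S

lemma free_of_tok {S : St k P} (hI : Inv S) {Y : Cache k P} (h : H0 S Y) {a : Fin k}
    (ha : free S a) (hy : inY Y (S.v a)) : ∃ b, free S b ∧ Y b = S.v a := by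
  obtain ⟨h1, b, h2⟩ := hy
  refine ⟨b, ?_, h2⟩
  have i1 := h.pin b
  have i2 := hI.sh b
  have i3 := hI.inj
  grind

lemma free_of_phi {S : St k P} (hI : Inv S) {Y : Cache k P} (h : H0 S Y) {b : Fin k}
    (hf : S.phi = some (Y b)) (hy : Y b ≠ none) : free S b := by
  have i1 := h.pin b
  have i2 := hI.sh b
  have i3 := hI.fr
  grind

/-- when the floater is tight or no cell is active, the free slots of a ghost in the hull hold
exactly the contents of the free cells, up to the floater -/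
lemma closed {S : St k P} (hI : Inv S) {Y : Cache k P} (h : H0 S Y)
    (hc : S.phi ≠ none ∨ ¬ exA S) (b : Fin k) (hb : free S b) :
    Y b ≠ none ∧ ((∃ a, free S a ∧ S.v a = Y b) ∨ (S.phi = some (Y b) ∧
      (∀ t, S.kd t = .L → b = t) ∧ (exA S ∨ ∃ t, S.kd t = .L ∧ S.ph t = false))) := by
  by_cases hall : ∀ a, free S a → inY Y (S.v a)
  · obtain ⟨f1, -⟩ := full (free S) S.v Y
      (fun a b ha hb e => hI.inj a b ha.2 hb.2 (inY_ne (hall a ha)) e)
      (fun a ha => free_of_tok hI h ha (hall a ha))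
    obtain ⟨a, ha, e⟩ := f1 b hb
    exact ⟨e ▸ inY_ne (hall a ha), Or.inl ⟨a, ha, e.symm⟩⟩
  · push Not at hall
    obtain ⟨z, hz, hd⟩ := hall
    have key : ∃ o, S.phi = some o ∧ inY Y o ∧ (∀ a, free S a → a ≠ z → inY Y (S.v a)) ∧
        (∀ t, S.kd t = .L → Y t = o) ∧ (exA S ∨ ∃ t, S.kd t = .L ∧ S.ph t = false) := by
      have hk : ∀ a, free S a → act (S.kd a) ∨ S.kd a = .L ∨ S.kd a = .F ∨ S.kd a = .DT := by
        intro a ha
        cases e : S.kd a <;> simp_all [act]
      obtain ⟨i1, i2, i3, i4, i5, i6, i7, i8, i9⟩ := h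
      by_cases hzl : S.kd z = .L
      · have j1 := hI.lp z hzl
        have j2 := hI.l1
        have j3 : S.phi = some (Y z) := by grind
        refine ⟨Y z, j3, inY_of rfl (by grind), by grind, by grind, Or.inr ⟨z, hzl, ?_⟩⟩
        have := i1 z
        grind
      · have j1 : act (S.kd z) := by grind
        have j2 : exA S := ⟨z, j1⟩
        obtain ⟨o, ho⟩ := Option.ne_none_iff_exists'.1 (hc.resolve_right (not_not.2 j2))
        exact ⟨o, ho, i7 o z ho j1 hd, by grind, by grind, Or.inl j2⟩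
    obtain ⟨o, k1, k2, k3, k4, k5⟩ := key
    obtain ⟨f1, f2⟩ := full (free S) (fun a => if a = z then o else S.v a) Y
      (by
        intro a b ha hb e
        have j1 := hI.inj a b
        have j2 := hI.fr a
        have j3 := hI.fr b
        have j4 := inY_ne k2
        have j5 : a ≠ z → S.v a ≠ none := fun e => inY_ne (k3 a ha e)
        grind)
      (by
        intro a ha
        by_cases e : a = z
        · obtain ⟨j1, c, j2⟩ := k2
          exact ⟨c, free_of_phi hI h (by rw [j2, k1]) (by rw [j2]; exact j1), by simp [e, j2]⟩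
        · simpa [e] using free_of_tok hI h ha (k3 a ha e))
    obtain ⟨a, ha, e⟩ := f1 b hb
    by_cases haz : a = z
    · simp only [haz, if_true] at e
      refine ⟨e ▸ inY_ne k2, Or.inr ⟨by rw [e, k1], fun t ht => ?_, k5⟩⟩
      exact f2 b t hb (by simp [free, ht]) (by rw [e, k4 t ht])
    · simp only [haz, if_false] at e
      exact ⟨e ▸ inY_ne (k3 a ha haz), Or.inl ⟨a, ha, e.symm⟩⟩

end Pool.Agent.P.MP_dee2e2_lc.X
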