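import Pool.Agent.P.MP_dee2e2_lc.Defs

namespace Pool.Agent.P.MP_dee2e2_lc.X
open Finset
open scoped Classical

variable {k : ℕ} {P : Type}

noncomputable def ham (Y X : Cache k P) : ℕ := (univ.filter (fun a => Y a ≠ X a)).card

lemma ham_self (Y : Cache k P) : ham Y Y = 0 := by simp [ham]

lemma ham_le (Y X : Cache k P) : ham Y X ≤ k := by
  unfold ham
  simpa using card_le_univ (univ.filter (fun a => Y a ≠ X a))

lemma ham_upd (Y X : Cache k P) (j : Fin k) (p : P) (hX : X j = some p) (hY : Y j ≠ some p) :
    ham (Function.update Y j (some p)) X + 1 = ham Y X := by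
  unfold ham
  have : univ.filter (fun a => Function.update Y j (some p) a ≠ X a)
      = (univ.filter (fun a => Y a ≠ X a)).erase j := by
    ext a
    simp only [mem_filter, mem_univ, true_and, mem_erase]
    by_cases h : a = j
    · subst h; simp [hX]
    · simp [h]
  rw [this]
  exact card_erase_add_one (by simp [hX, hY])

lemma ham_upd_right (Y X : Cache k P) (j : Fin k) (o : Option P) :
    ham Y (Function.update X j o) ≤ ham Y X + 1 := by
  unfold ham
  have : univ.filter (fun a => Y a ≠ Function.update X j o a)
      ⊆ insert j (univ.filter (fun a => Y a ≠ X a)) := by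
    intro a ha
    simp only [mem_filter, mem_univ, true_and, mem_insert] at ha ⊢
    by_cases h : a = j
    · exact Or.inl h
    · rw [Function.update_of_ne h] at ha; exact Or.inr ha
  exact (card_le_card this).trans (card_insert_le _ _)

lemma ham_retrieve (Y : Cache k P) (l : List (Fin k × P)) :
    ∀ X : Cache k P, ham Y (retrieve X l) ≤ ham Y X + l.length := by
  induction l with
  | nil => intro X; simp [retrieve]
  | cons x l ih =>
    intro X
    have h1 := ih (Function.update X x.1 (some x.2))
    have h2 := ham_upd_right Y X x.1 (some x.2)
    have h3 : retrieve X (x :: l) = retrieve (Function.update X x.1 (some x.2)) l := rfl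
    rw [h3, List.length_cons]
    omega

end Pool.Agent.P.MP_dee2e2_lc.X
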