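import Pool.Agent.P.MP_dee2e2_lc.X.Ham

/-! The lower bound `2k - 1` for every deterministic online algorithm. -/

namespace Pool.Agent.P.MP_dee2e2_lc.X
open Finset
open scoped Classical

variable {k : ℕ} {P : Type}

/-- the cache after a schedule -/
def fin (C : Cache k P) (L : List (List (Fin k × P))) : Cache k P := L.foldl retrieve C

lemma fin_snoc (C : Cache k P) (L : List (List (Fin k × P))) (l : List (Fin k × P)) :
    fin C (L ++ [l]) = retrieve (fin C L) l := by simp [fin]

lemma cost_snoc (L : List (List (Fin k × P))) (l : List (Fin k × P)) :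
    cost (L ++ [l]) = cost L + l.length := by simp [cost]

lemma schedule_snoc (A : OnlineAlg k P) (r : Request k P) (σ : List (Request k P)) :
    ∀ past, schedule A past (σ ++ [r]) = schedule A past σ ++ [A (past ++ σ) r] := by
  induction σ with
  | nil => intro past; simp [schedule]
  | cons x σ ih => intro past; simp [schedule, ih]

lemma serves_snoc (r : Request k P) (l : List (Fin k × P)) (σ : List (Request k P)) :
    ∀ (C : Cache k P) (L : List (List (Fin k × P))), Serves C σ L →
      (Serves C (σ ++ [r]) (L ++ [l]) ↔ Satisfies (retrieve (fin C L) l) r) := by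
  induction σ with
  | nil =>
    intro C L h
    cases L with
    | nil => simp [Serves, fin]
    | cons x L => exact absurd h (by simp [Serves])
  | cons x σ ih =>
    intro C L h
    cases L with
    | nil => exact absurd h (by simp [Serves])
    | cons y L =>
      obtain ⟨h1, h2⟩ := h
      have := ih _ L h2
      simp only [List.cons_append, Serves, h1, true_and, this]
      rfl

/-- an offline schedule that heads for a cache satisfying the next request serves it for free -/
lemma ext_sched {C₀ Z : Cache k P} {σ : List (Request k P)} {r : Request k P} {n : ℕ}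
    (hZ : Satisfies Z r) (h : ∃ L, Serves C₀ σ L ∧ cost L + ham (fin C₀ L) Z ≤ n) :
    ∃ L, Serves C₀ (σ ++ [r]) L ∧ cost L + ham (fin C₀ L) Z ≤ n := by
  obtain ⟨L, h1, h2⟩ := h
  by_cases hY : Satisfies (fin C₀ L) r
  · refine ⟨L ++ [[]], (serves_snoc r [] σ C₀ L h1).2 hY, ?_⟩
    rw [cost_snoc, fin_snoc]
    exact h2
  · have key : ∃ j, Z j = some r.page ∧ fin C₀ L j ≠ some r.page ∧
        Satisfies (Function.update (fin C₀ L) j (some r.page)) r := by
      obtain ⟨p, _ | t⟩ := r
      · obtain ⟨j, hj⟩ := hZ
        exact ⟨j, hj, fun h => hY ⟨j, h⟩, j, by simp⟩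
      · exact ⟨t, hZ, hY, show Function.update _ t _ t = _ by simp⟩
    obtain ⟨j, k1, k2, k3⟩ := key
    refine ⟨L ++ [[(j, r.page)]], (serves_snoc r _ σ C₀ L h1).2 k3, ?_⟩
    rw [cost_snoc, fin_snoc]
    have e : retrieve (fin C₀ L) [(j, r.page)] = Function.update (fin C₀ L) j (some r.page) := rfl
    have := ham_upd (fin C₀ L) Z j r.page k1 k2
    rw [e, List.length_singleton]
    omega

noncomputable def psi (C : Cache k P) (X : Fin k → P) (J : Finset (Fin k)) : ℕ :=
  ∑ s, if s ∈ J then (if C s = some (X s) then 2 else 1) else (if C s = some (X s) then 0 else 1)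

lemma psi_upd (C : Cache k P) (X : Fin k → P) (J : Finset (Fin k)) (j : Fin k) (o : Option P) :
    psi C X J ≤ psi (Function.update C j o) X J + 1 := by
  have : psi C X J ≤ ∑ s, ((if s ∈ J then (if Function.update C j o s = some (X s) then 2 else 1)
      else (if Function.update C j o s = some (X s) then 0 else 1)) + if s = j then 1 else 0) := by
    apply Finset.sum_le_sum
    intro s _
    by_cases h : s = j
    · rw [if_pos h]; split_ifs <;> omega
    · rw [Function.update_of_ne h]; omega
  simpa [psi, Finset.sum_add_distrib] using this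

lemma psi_retrieve (X : Fin k → P) (J : Finset (Fin k)) (l : List (Fin k × P)) :
    ∀ C : Cache k P, psi C X J ≤ psi (retrieve C l) X J + l.length := by
  induction l with
  | nil => intro C; simp [retrieve]
  | cons x l ih =>
    intro C
    have h1 := ih (Function.update C x.1 (some x.2))
    have h2 := psi_upd C X J x.1 (some x.2)
    have h3 : retrieve C (x :: l) = retrieve (Function.update C x.1 (some x.2)) l := rfl
    rw [h3, List.length_cons]
    omega

lemma psi_le (C : Cache k P) (X : Fin k → P) (J : Finset (Fin k)) : psi C X J ≤ 2 * k := by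
  have : psi C X J ≤ ∑ _s : Fin k, 2 := by
    apply Finset.sum_le_sum
    intro s _
    split_ifs <;> omega
  simpa [mul_comm] using this

lemma psi_erase (C : Cache k P) (X : Fin k → P) (J : Finset (Fin k)) (s : Fin k)
    (h : C s ≠ some (X s)) : psi C X (J.erase s) = psi C X J := by
  apply Finset.sum_congr rfl
  intro a _
  by_cases e : a = s
  · subst e; simp [h]
  · simp [e]

/-- target cache of the adversary -/
def tgt (X : Fin k → P) (j : Fin k) (q : P) : Cache k P :=
  Function.update (fun s => some (X s)) j (some q)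

/-- state of the adversary -/
def Adv (C₀ : Cache k P) (A : OnlineAlg k P) (N : ℕ) : Prop :=
  ∃ (σ : List (Request k P)) (X : Fin k → P) (q : P) (J : Finset (Fin k)) (m : ℕ),
    (∀ s, X s ≠ q) ∧ Function.Injective X ∧ J.Nonempty ∧
    (∀ j ∈ J, ∃ L, Serves C₀ σ L ∧ cost L + ham (fin C₀ L) (tgt X j q) ≤ k + m) ∧
    (2 * k - 1) * m ≤ cost (schedule A [] σ) + psi (fin C₀ (schedule A [] σ)) X J ∧
    N ≤ cost (schedule A [] σ) + m

lemma miss_len {C₀ : Cache k P} {A : OnlineAlg k P} (hA : ∀ σ, Serves C₀ σ (schedule A [] σ))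
    (σ : List (Request k P)) (r : Request k P)
    (h : ¬ Satisfies (fin C₀ (schedule A [] σ)) r) : 1 ≤ (A σ r).length := by
  have h1 := hA (σ ++ [r])
  rw [schedule_snoc, serves_snoc r _ σ C₀ _ (hA σ), List.nil_append] at h1
  rcases e : A σ r with _ | ⟨x, l⟩
  · rw [e] at h1; exact absurd h1 h
  · simp

lemma adv_step {C₀ : Cache k P} {A : OnlineAlg k P} (hA : ∀ σ, Serves C₀ σ (schedule A [] σ))
    {N : ℕ} (h : Adv C₀ A N) : Adv C₀ A (N + 1) := by
  obtain ⟨σ, X, q, J, m, h1, h2, h3, h4, h5, h6⟩ := h
  by_cases c1 : Satisfies (fin C₀ (schedule A [] σ)) ⟨q, none⟩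
  · by_cases c2 : ∃ s, fin C₀ (schedule A [] σ) s ≠ some (X s) ∧ (J.erase s).Nonempty
    · obtain ⟨s, c2, c3⟩ := c2
      have e1 := miss_len hA σ ⟨X s, some s⟩ c2
      have e2 := psi_retrieve X (J.erase s) (A σ ⟨X s, some s⟩) (fin C₀ (schedule A [] σ))
      rw [psi_erase _ _ _ _ c2] at e2
      refine ⟨σ ++ [⟨X s, some s⟩], X, q, J.erase s, m, h1, h2, c3, fun j hj => ?_, ?_, ?_⟩
      · rw [mem_erase] at hj
        refine ext_sched ?_ (h4 j hj.2)
        show tgt X j q s = some (X s)
        simp [tgt, Function.update_of_ne hj.1.symm]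
      · rw [schedule_snoc, cost_snoc, fin_snoc, List.nil_append]; omega
      · rw [schedule_snoc, cost_snoc, List.nil_append]; omega
    · push Not at c2
      obtain ⟨a, ha⟩ := c1
      replace ha : fin C₀ (schedule A [] σ) a = some q := ha
      have hJ : J = {a} := by
        have := c2 a (by rw [ha]; simpa using (h1 a).symm)
        rw [Finset.erase_eq_empty_iff] at this
        exact this.resolve_left h3.ne_empty
      have hC : ∀ s, s ≠ a → fin C₀ (schedule A [] σ) s = some (X s) := by
        intro s hs
        by_contra e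
        have := c2 s e
        rw [hJ, Finset.erase_eq_of_notMem (by simpa using hs)] at this
        simp at this
      have p1 : psi (fin C₀ (schedule A [] σ)) X J = 1 := by
        have : psi (fin C₀ (schedule A [] σ)) X J = ∑ s, if s = a then 1 else 0 := by
          apply Finset.sum_congr rfl
          intro s _
          by_cases e : s = a
          · subst e; simp [hJ, ha, (h1 s).symm]
          · simp [hJ, e, hC s e]
        simpa using this
      have p2 : psi (fin C₀ (schedule A [] σ)) (Function.update X a q) univ = 2 * k := by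
        have : psi (fin C₀ (schedule A [] σ)) (Function.update X a q) univ = ∑ _s : Fin k, 2 := by
          apply Finset.sum_congr rfl
          intro s _
          by_cases e : s = a
          · subst e; simp [ha]
          · simp [e, hC s e]
        simpa [mul_comm] using this
      have hk : 0 < k := a.pos
      refine ⟨σ, Function.update X a q, X a, univ, m + 1, fun s => ?_, ?_, ⟨a, mem_univ a⟩,
        fun j _ => ?_, ?_, by omega⟩
      · by_cases e : s = a
        · subst e; simpa using (h1 s).symm
        · rw [Function.update_of_ne e]; exact fun h => e (h2 h)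
      · intro s t hst
        by_cases e1 : s = a <;> by_cases e2 : t = a
        · rw [e1, e2]
        · subst e1; rw [Function.update_self, Function.update_of_ne e2] at hst
          exact absurd hst.symm (h1 t)
        · subst e2; rw [Function.update_self, Function.update_of_ne e1] at hst
          exact absurd hst (h1 s)
        · rw [Function.update_of_ne e1, Function.update_of_ne e2] at hst
          exact h2 hst
      · obtain ⟨L, l1, l2⟩ := h4 a (by simp [hJ])
        refine ⟨L, l1, ?_⟩
        have e : tgt (Function.update X a q) j (X a) = Function.update (tgt X a q) j (some (X a)) := by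
          unfold tgt
          congr 1
          funext s
          by_cases e : s = a
          · subst e; simp
          · simp [e]
        have := ham_upd_right (fin C₀ L) (tgt X a q) j (some (X a))
        rw [e]
        omega
      · rw [p2, Nat.mul_add]
        rw [p1] at h5
        omega
  · have e1 := miss_len hA σ ⟨q, none⟩ c1
    have e2 := psi_retrieve X J (A σ ⟨q, none⟩) (fin C₀ (schedule A [] σ))
    refine ⟨σ ++ [⟨q, none⟩], X, q, J, m, h1, h2, h3, fun j hj => ?_, ?_, ?_⟩
    · exact ext_sched ⟨j, by simp [tgt]⟩ (h4 j hj)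
    · rw [schedule_snoc, cost_snoc, fin_snoc, List.nil_append]; omega
    · rw [schedule_snoc, cost_snoc, List.nil_append]; omega

theorem lower (hk : 1 ≤ k) (e : Fin (k + 1) ↪ P) (C₀ : Cache k P) (A : OnlineAlg k P) (c : ℝ)
    (h : Competitive C₀ A c) : 2 * (k : ℝ) - 1 ≤ c := by
  obtain ⟨hA, b, hb⟩ := h
  have all : ∀ N, Adv C₀ A N := by
    intro N
    induction N with
    | zero =>
      refine ⟨[], fun s => e s.castSucc, e (Fin.last k), univ, 0, fun s h => ?_,
        fun s t h => Fin.castSucc_injective _ (e.injective h), ⟨⟨0, hk⟩, mem_univ _⟩,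
        fun j _ => ⟨[], trivial, ?_⟩, by simp, by simp⟩
      · exact (Fin.castSucc_lt_last s).ne (e.injective h)
      · simpa [cost] using ham_le _ _
    | succ N ih => exact adv_step hA ih
  by_contra hc
  push Not at hc
  have hk' : (1 : ℝ) ≤ k := by exact_mod_cast hk
  set d : ℝ := max c 0 with hd
  have d0 : 0 ≤ d := le_max_right _ _
  have d1 : c ≤ d := le_max_left _ _
  have d2 : d < 2 * k - 1 := max_lt hc (by linarith)
  set M : ℝ := (d * k + b + 2 * k) / (2 * k - 1 - d) with hM
  obtain ⟨N, hN⟩ := exists_nat_gt (d * (k + M) + b + M)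
  obtain ⟨σ, X, q, J, m, -, -, ⟨j, hj⟩, h4, h5, h6⟩ := all N
  obtain ⟨L, l1, l2⟩ := h4 j hj
  have o0 : OPT C₀ σ ≤ cost L := Nat.sInf_le ⟨L, l1, rfl⟩
  have o1 : OPT C₀ σ ≤ k + m := by omega
  have o2 : (OPT C₀ σ : ℝ) ≤ k + m := by exact_mod_cast o1
  have o3 : (0 : ℝ) ≤ OPT C₀ σ := Nat.cast_nonneg _
  have a1 : (cost (schedule A [] σ) : ℝ) ≤ d * (k + m) + b := by
    have := hb σ
    nlinarith
  have a2 : (2 * (k : ℝ) - 1) * m ≤ cost (schedule A [] σ) + 2 * k := by
    have := psi_le (fin C₀ (schedule A [] σ)) X J
    have h7 : (2 * k - 1) * m ≤ cost (schedule A [] σ) + 2 * k := by omega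
    have h4 : ((2 * k - 1 : ℕ) : ℝ) = 2 * (k : ℝ) - 1 := by
      rw [Nat.cast_sub (by omega)]; simp
    rw [← h4]
    exact_mod_cast h7
  have a3 : (m : ℝ) ≤ M := by
    rw [hM, le_div_iff₀ (by linarith)]
    nlinarith
  have a4 : (N : ℝ) ≤ cost (schedule A [] σ) + m := by exact_mod_cast h6
  nlinarith

end Pool.Agent.P.MP_dee2e2_lc.X
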