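import Pool.Agent.P.MP_dee2e2_lc.X.St

namespace Pool.Agent.P.MP_dee2e2_lc.X
open Finset
open scoped Classical

variable {k : ℕ} {P : Type}

/-- load `p` into cell `c`, give it kind `K` and a fresh age, and set the floater to `f` -/
def put (S : St k P) (c : Fin k) (p : P) (K : Kd) (f : Option (Option P)) : St k P where
  v a := if a = c then some p else S.v a
  ph a := if a = c then true else S.ph a
  kd a := if a = c then K else S.kd a
  age a := if a = c then S.top else S.age a
  phi := f

/-- change the record of one cell -/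
def chg (S : St k P) (t : Fin k) (x : Option P) (b : Bool) (K : Kd) (g : ℕ) : St k P where
  v a := if a = t then x else S.v a
  ph a := if a = t then b else S.ph a
  kd a := if a = t then K else S.kd a
  age a := if a = t then g else S.age a
  phi := S.phi

lemma W_put (S : St k P) (c : Fin k) (p : P) (K : Kd) (f : Option (Option P)) :
    W (put S c p K f) + wt (S.kd c) (S.ph c) = W S + wt K true := by
  apply le_antisymm
  · have := sum_cmp (fun a => wt ((put S c p K f).kd a) ((put S c p K f).ph a))
      (fun a => wt (S.kd a) (S.ph a)) c c c (wt (S.kd c) (S.ph c)) (wt K true) 0 (by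
        intro a; by_cases h : a = c <;> simp [put, h, add_comm])
    simpa [W] using this
  · have := sum_cmp (fun a => wt (S.kd a) (S.ph a))
      (fun a => wt ((put S c p K f).kd a) ((put S c p K f).ph a))
      c c c (wt K true) (wt (S.kd c) (S.ph c)) 0 (by
        intro a; by_cases h : a = c <;> simp [put, h, add_comm])
    simpa [W] using this

lemma W_chg (S : St k P) (t : Fin k) (x : Option P) (b : Bool) (K : Kd) (g : ℕ) :
    W (chg S t x b K g) + wt (S.kd t) (S.ph t) = W S + wt K b := by
  apply le_antisymm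
  · have := sum_cmp (fun a => wt ((chg S t x b K g).kd a) ((chg S t x b K g).ph a))
      (fun a => wt (S.kd a) (S.ph a)) t t t (wt (S.kd t) (S.ph t)) (wt K b) 0 (by
        intro a; by_cases h : a = t <;> simp [chg, h, add_comm])
    simpa [W] using this
  · have := sum_cmp (fun a => wt (S.kd a) (S.ph a))
      (fun a => wt ((chg S t x b K g).kd a) ((chg S t x b K g).ph a))
      t t t (wt K b) (wt (S.kd t) (S.ph t)) 0 (by
        intro a; by_cases h : a = t <;> simp [chg, h, add_comm])
    simpa [W] using this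

/-- budget inequality from the weight drop and the behaviour of `d1`, `d2` -/
lemma bud_of {S S' : St k P} (n : ℕ) (hW : W S' + n ≤ W S)
    (h : 1 + (if d1 S' then 0 else 1) + (if d2 S' then 0 else 1) ≤
      n + (if d1 S then 0 else 1) + (if d2 S then 0 else 1)) : 1 + Phi S' ≤ Phi S := by
  unfold Phi; omega

lemma bud_one {S S' : St k P} (hW : W S' + 1 ≤ W S) (h1 : d1 S') (h2 : d2 S → d2 S') :
    1 + Phi S' ≤ Phi S := by
  apply bud_of 1 hW
  by_cases a : d2 S <;> by_cases b : d2 S' <;> by_cases c : d1 S <;> simp_all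

lemma d2_L {S : St k P} (h : exL S) : d2 S ↔ GA S := by
  unfold d2; tauto

lemma d2_N {S : St k P} (h : ¬ exL S) : d2 S ↔ (exT S ∧ (GA S ∨ ¬ exP S) ∧
    (exA S ∨ exN S ∨ GD S) ∧ ¬ (sd S ∧ ¬ twoT S ∧ exA S)) := by
  unfold d2; tauto

theorem good_loadL {S : St k P} (hI : Inv S) {c : Fin k} {p : P} {o : Option (Fin k)}
    (ho : ∀ s, o = some s → s = c) (hv : S.v c = some p) (hp : S.ph c = false)
    (hk : S.kd c = .L) : Good1 S ⟨p, o⟩ (put S c p .L S.phi) [(c, p)] := by
  have ht := lt_top S
  refine ⟨?_, sat_phys (c := c) (by simp [put]) (by simp [put]) ho,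
    below_one (by intro a h; simp [put, h]) (by simp [put]), ?_, ?_, ?_⟩
  · obtain ⟨i1, i2, i3, i4, i5, i6, i7, i8⟩ := hI
    constructor <;> simp only [put] <;> grind
  · have hW := W_put S c p .L S.phi
    rw [hk, hp] at hW
    have e1 : exL S := ⟨c, hk⟩
    have e2 : exL (put S c p .L S.phi) := ⟨c, by simp [put]⟩
    apply bud_one (by simp [wt] at hW; omega) (Or.inl e2)
    rw [d2_L e1, d2_L e2]
    rintro ⟨a, h1, h2, h3⟩
    refine ⟨a, ?_⟩
    simp only [put]
    grind
  · intro Y hY h
    have hy := inY_of_sat hY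
    obtain ⟨i1, i2, i3, i4, i5, i6, i7, i8, i9⟩ := h
    constructor <;> simp only [put, isD] <;> grind
  · intro Y hY h
    have hy := inY_of_sat hY
    obtain ⟨i1, i2⟩ := h
    constructor <;> simp only [put, isD] <;> grind

/-- budget of a step that turns a weight three `T` cell into a fresh `DT` cell -/
lemma bud_toDT {S : St k P} {c : Fin k} {p : P} {f : Option (Option P)}
    (hT : isT (S.kd c)) (hw : wt (S.kd c) (S.ph c) = 3) (hf : f = none ↔ S.phi = none)
    (hG : GA S → (exL S ∨ exP S) → GA (put S c p .DT f)) :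
    1 + Phi (put S c p .DT f) ≤ Phi S := by
  have ht := lt_top S
  have hW := W_put S c p .DT f
  rw [hw] at hW
  have e1 : exT (put S c p .DT f) := ⟨c, by simp [put, isT]⟩
  apply bud_one (by simp [wt] at hW; omega) (Or.inr (Or.inl e1))
  have e2 : exL (put S c p .DT f) ↔ exL S := by
    unfold exL; simp only [put]; grind
  have e3 : exP (put S c p .DT f) ↔ exP S := by
    unfold exP; simp only [put]; grind
  have e4 : GD (put S c p .DT f) := ⟨c, by simp only [put]; grind⟩
  have e5 : sd (put S c p .DT f) → sd S := by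
    unfold sd; simp only [put]; grind
  have e6 : twoT S → twoT (put S c p .DT f) := by
    rintro ⟨a, b, h1, h2, h3⟩
    refine ⟨a, b, h1, ?_⟩
    simp only [put]; grind
  have e7 : exA (put S c p .DT f) → exA S := by
    unfold exA; simp only [put]; grind
  unfold d2
  clear ht hW hw hf hT
  grind

theorem good_load {S : St k P} (hI : Inv S) {c : Fin k} {p : P} {o : Option (Fin k)}
    (ho : ∀ s, o = some s → s = c) (hv : S.v c = some p) (hp : S.ph c = false)
    (hk : S.kd c ≠ .L) : Good1 S ⟨p, o⟩ (put S c p .DT S.phi) [(c, p)] := by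
  have ht := lt_top S
  have hT : isT (S.kd c) := by
    have := hI.pp c
    cases h : S.kd c <;> simp_all [isT]
  refine ⟨?_, sat_phys (c := c) (by simp [put]) (by simp [put]) ho,
    below_one (by intro a h; simp [put, h]) (by simp [put]), ?_, ?_, ?_⟩
  · obtain ⟨i1, i2, i3, i4, i5, i6, i7, i8⟩ := hI
    constructor <;> simp only [put] <;> grind
  · apply bud_toDT hT (by rcases hT with h | h | h | h <;> simp [h, hp, wt]) Iff.rfl
    rintro ⟨a, h1, h2, h3⟩ -
    refine ⟨a, ?_⟩
    simp only [put]
    grind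
  · intro Y hY h
    have hy := inY_of_sat hY
    obtain ⟨i1, i2, i3, i4, i5, i6, i7, i8, i9⟩ := h
    constructor <;> simp only [put, isD] <;> grind
  · intro Y hY h
    have hy := inY_of_sat hY
    obtain ⟨i1, i2⟩ := h
    constructor <;> simp only [put, isD] <;> grind

theorem good_landT {S : St k P} (hI : Inv S) {u : Fin k} {p : P}
    (hv : ∀ a, S.v a ≠ some p) (hL : ∀ a, S.kd a ≠ .L)
    (hu : S.kd u = .Z ∨ (S.kd u = .AT ∧ ∀ b, S.kd b = .AP → S.age u ≤ S.age b)) :
    Good1 S ⟨p, none⟩ (put S u p .DT (if S.phi = none then none else some (S.v u)))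
      [(u, p)] := by
  have ht := lt_top S
  refine ⟨?_, sat_phys (c := u) (by simp [put]) (by simp [put]) (by simp),
    below_one (by intro a h; simp [put, h]) (by simp [put]), ?_, ?_, ?_⟩
  · obtain ⟨i1, i2, i3, i4, i5, i6, i7, i8⟩ := hI
    constructor <;> simp only [put] <;> grind
  · apply bud_toDT (by grind) (by rcases hu with h | ⟨h, -⟩ <;> simp [h, wt]) (by grind)
    rintro ⟨a, h1, h2, h3⟩ h4
    refine ⟨a, ?_⟩
    unfold exL exP at h4
    simp only [put]
    grind
  · intro Y hY h
    have hy := inY_of_sat hY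
    obtain ⟨i1, i2, i3, i4, i5, i6, i7, i8, i9⟩ := h
    constructor <;> simp only [put, isD] <;> grind
  · intro Y hY h
    have hy := inY_of_sat hY
    obtain ⟨i1, i2⟩ := h
    constructor <;> simp only [put, isD] <;> grind

theorem good_landP {S : St k P} (hI : Inv S) {u : Fin k} {p : P}
    (hv : ∀ a, S.v a ≠ some p) (hL : ∀ a, S.kd a ≠ .L) (hZ : ∀ a, S.kd a ≠ .Z)
    (hu : S.kd u = .AP) (hm : ∀ b, act (S.kd b) → S.age u ≤ S.age b) :
    Good1 S ⟨p, none⟩ (put S u p .L (some (S.v u))) [(u, p)] := by
  have ht := lt_top S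
  refine ⟨?_, sat_phys (c := u) (by simp [put]) (by simp [put]) (by simp),
    below_one (by intro a h; simp [put, h]) (by simp [put]), ?_, ?_, ?_⟩
  · obtain ⟨i1, i2, i3, i4, i5, i6, i7, i8⟩ := hI
    constructor <;> simp only [put] <;> grind
  · have hW := W_put S u p .L (some (S.v u))
    rw [hu] at hW
    have e1 : ¬ exL S := by unfold exL; grind
    have e2 : exL (put S u p .L (some (S.v u))) := ⟨u, by simp [put]⟩
    have e3 : exP S := ⟨u, hu⟩
    apply bud_one (by simp [wt] at hW; omega) (Or.inl e2)
    rw [d2_N e1, d2_L e2]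
    rintro ⟨-, ⟨a, h1, h2, h3⟩ | h, -⟩
    · refine ⟨a, ?_⟩
      simp only [put]
      grind
    · exact absurd e3 h
  · intro Y hY h
    have hy := inY_of_sat hY
    obtain ⟨i1, i2, i3, i4, i5, i6, i7, i8, i9⟩ := h
    constructor <;> simp only [put, isD] <;> grind
  · intro Y hY h
    have hy := inY_of_sat hY
    obtain ⟨i1, i2⟩ := h
    constructor <;> simp only [put, isD] <;> grind

end Pool.Agent.P.MP_dee2e2_lc.X
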