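import Pool.Agent.P.MP_dee2e2_lc.X.Op1
import Pool.Agent.P.MP_dee2e2_lc.X.Closed

namespace Pool.Agent.P.MP_dee2e2_lc.X
open Finset
open scoped Classical

variable {k : ℕ} {P : Type}

theorem good_reload {S : St k P} (hI : Inv S) {t : Fin k} {p : P} {o : Option (Fin k)}
    (ho : ∀ s, o = some s → s = t) (hk : S.kd t = .L) (hf : S.phi = some (some p))
    (hn : exA S ∨ S.ph t = false) :
    Good1 S ⟨p, o⟩ (put S t p .DP (some (S.v t))) [(t, p)] := by
  have ht := lt_top S
  refine ⟨?_, sat_phys (c := t) (by simp [put]) (by simp [put]) ho,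
    below_one (by intro a h; simp [put, h]) (by simp [put]), ?_, ?_, ?_⟩
  · obtain ⟨i1, i2, i3, i4, i5, i6, i7, i8⟩ := hI
    constructor <;> simp only [put] <;> grind
  · have hW := W_put S t p .DP (some (S.v t))
    rw [hk] at hW
    have i1 := hI.l1
    have e1 : exL S := ⟨t, hk⟩
    have e2 : ¬ exL (put S t p .DP (some (S.v t))) := by
      unfold exL; simp only [put]; grind
    have e3 : ¬ sd (put S t p .DP (some (S.v t))) := by
      unfold sd; simp [put]
    have e4 : GA S → d2 (put S t p .DP (some (S.v t))) := by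
      rintro ⟨a, h1, h2, h3⟩
      rw [d2_N e2]
      refine ⟨⟨a, ?_⟩, Or.inl ⟨a, ?_⟩, Or.inl ⟨a, ?_⟩, fun h => e3 h.1⟩ <;>
        simp only [put] <;> grind
    have e5 : exA S → d1 (put S t p .DP (some (S.v t))) := by
      rintro ⟨a, h1 | h1 | h1⟩
      · exact Or.inr (Or.inl ⟨a, by simp only [put]; grind⟩)
      · exact Or.inr (Or.inl ⟨a, by simp only [put]; grind⟩)
      · exact Or.inr (Or.inr ⟨⟨a, by simp only [put]; grind⟩, e3⟩)
    cases hp : S.ph t
    · rw [hp] at hW
      apply bud_of 2 (by simp [wt] at hW; omega)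
      have e6 := d2_L e1
      have e7 := @d1_of_d2 _ _ (put S t p .DP (some (S.v t)))
      by_cases g : GA S
      · simp [e4 g, e7 (e4 g)]; omega
      · rw [if_neg (fun h => g (e6.1 h))]
        split_ifs <;> omega
    · rw [hp] at hW
      apply bud_one (by simp [wt] at hW; omega) (e5 (by simpa [hp] using hn))
      rw [d2_L e1]; exact e4
  · intro Y hY h
    have hy := inY_of_sat hY
    have hYt : Y t = some p := by
      obtain ⟨-, b, hb⟩ := hy
      have j1 := free_of_phi hI h (b := b) (by rw [hb, hf]) (by simp [hb])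
      obtain ⟨-, ⟨a, j2, j3⟩ | ⟨-, j2, -⟩⟩ := closed hI h (Or.inl (by simp [hf])) b j1
      · have := hI.fr a j2.2 (by simp [j3, hb])
        rw [j3, hb] at this
        exact absurd hf this
      · rw [← j2 t hk, hb]
    obtain ⟨i1, i2, i3, i4, i5, i6, i7, i8, i9⟩ := h
    have j1 := hI.l1
    constructor <;> simp only [put, isD] <;> grind
  · intro Y hY h
    have hy := inY_of_sat hY
    obtain ⟨i1, i2⟩ := h
    have j1 := hI.l1
    constructor <;> simp only [put, isD] <;> grind

theorem good_swapL {S : St k P} (hI : Inv S) {t s : Fin k} {p : P}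
    (hk : S.kd t = .L) (hv : S.v t = some p) (hs : isT (S.kd s) ∨ S.kd s = .AP) :
    Good1 S ⟨p, some s⟩ (put (chg S t (S.v s) false .L 0) s p .DP S.phi) [(s, p)] := by
  have ht := lt_top (chg S t (S.v s) false .L 0)
  have hst : s ≠ t := by grind
  refine ⟨?_, sat_phys (c := s) (by simp [put]) (by simp [put]) (by simp),
    below_one (by intro a h; simp only [put, chg]; grind) (by simp [put]), ?_, ?_, ?_⟩
  · obtain ⟨i1, i2, i3, i4, i5, i6, i7, i8⟩ := hI
    constructor <;> simp only [put, chg] <;> grind
  · have hW := W_put (chg S t (S.v s) false .L 0) s p .DP S.phi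
    have hW' := W_chg S t (S.v s) false .L 0
    have e0 : wt ((chg S t (S.v s) false .L 0).kd s) ((chg S t (S.v s) false .L 0).ph s) =
      wt (S.kd s) (S.ph s) := by simp [chg, hst]
    rw [e0] at hW
    rw [hk] at hW'
    have e1 : exL S := ⟨t, hk⟩
    have e2 : exL (put (chg S t (S.v s) false .L 0) s p .DP S.phi) :=
      ⟨t, by simp [put, chg, hst.symm]⟩
    have w1 : 1 ≤ wt .L (S.ph t) := by cases S.ph t <;> simp [wt]
    have w2 : wt .L false = 2 := rfl
    have w3 : wt .DP true = 0 := rfl
    by_cases hA : S.kd s = .AT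
    · rw [hA] at hW
      have w4 : wt .AT (S.ph s) = 3 := rfl
      apply bud_of 2 (by omega)
      rw [if_pos (show d1 _ from Or.inl e2)]
      split_ifs <;> omega
    · have w4 : 2 ≤ wt (S.kd s) (S.ph s) := by
        rcases hs with (h | h | h | h) | h <;> rw [h] <;> cases S.ph s <;> simp [wt]
      apply bud_one (by omega) (Or.inl e2)
      rw [d2_L e1, d2_L e2]
      rintro ⟨a, h1, h2, h3⟩
      refine ⟨a, ?_⟩
      simp only [put, chg]
      grind
  · intro Y hY h
    have hy := inY_of_sat hY
    have hs : Y s = some p := hY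
    obtain ⟨i1, i2, i3, i4, i5, i6, i7, i8, i9⟩ := h
    have j1 := hI.l1
    have j2 := hI.lp t hk
    constructor <;> simp only [put, chg, isD] <;> grind
  · intro Y hY h
    have hy := inY_of_sat hY
    have hs : Y s = some p := hY
    obtain ⟨i1, i2⟩ := h
    have j1 := hI.l1
    constructor <;> simp only [put, chg, isD] <;> grind

/-- kind of a swapped cell -/
def unp (x : Kd) : Kd := if x = .AP then .AT else x

theorem good_swap {S : St k P} (hI : Inv S) {t s : Fin k} {p : P} (hst : s ≠ t)
    (hk : isT (S.kd t) ∨ S.kd t = .AP) (hv : S.v t = some p)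
    (hs : isT (S.kd s) ∨ S.kd s = .AP) :
    Good1 S ⟨p, some s⟩
      (put (chg S t (S.v s) false (unp (S.kd s)) (S.age s)) s p .DP S.phi) [(s, p)] := by
  have ht := lt_top (chg S t (S.v s) false (unp (S.kd s)) (S.age s))
  refine ⟨?_, sat_phys (c := s) (by simp [put]) (by simp [put]) (by simp),
    below_one (by intro a h; simp only [put, chg]; grind) (by simp [put]), ?_, ?_, ?_⟩
  · obtain ⟨i1, i2, i3, i4, i5, i6, i7, i8⟩ := hI
    constructor <;> simp only [put, chg, unp] <;> grind (splits := 20)
  · have hW := W_put (chg S t (S.v s) false (unp (S.kd s)) (S.age s)) s p .DP S.phi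
    have hW' := W_chg S t (S.v s) false (unp (S.kd s)) (S.age s)
    have e0 : wt ((chg S t (S.v s) false (unp (S.kd s)) (S.age s)).kd s)
        ((chg S t (S.v s) false (unp (S.kd s)) (S.age s)).ph s) =
      wt (S.kd s) (S.ph s) := by simp [chg, hst]
    rw [e0] at hW
    have w1 : wt (unp (S.kd s)) false = 3 := by
      rcases hs with (h | h | h | h) | h <;> rw [h] <;> simp [wt, unp]
    have w3 : wt .DP true = 0 := rfl
    have w4 : ∀ a, isT (S.kd a) ∨ S.kd a = .AP → wt (S.kd a) (S.ph a) = 3 ∨
        (wt (S.kd a) (S.ph a) = 2 ∧ S.kd a ≠ .Z ∧ S.kd a ≠ .AT) := by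
      intro a hs
      rcases hs with (h | h | h | h) | h <;> rw [h] <;> cases S.ph a <;> simp [wt]
    generalize hS' : put (chg S t (S.v s) false (unp (S.kd s)) (S.age s)) s p .DP S.phi = S' at *
    have ek : ∀ a, S'.kd a = if a = s then .DP else if a = t then unp (S.kd s) else S.kd a := by
      intro a; rw [← hS']; rfl
    have ep : ∀ a, S'.ph a = if a = s then true else if a = t then false else S.ph a := by
      intro a; rw [← hS']; rfl
    have ea : ∀ a, a ≠ s → a ≠ t → S'.age a = S.age a := by
      intro a h1 h2; rw [← hS']; simp [put, chg, h1, h2]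
    have e1 : exT S' := ⟨t, by rw [ek]; unfold unp; grind⟩
    have e2 : d1 S' := Or.inr (Or.inl e1)
    by_cases hw : wt (S.kd s) (S.ph s) = 2 ∧ wt (S.kd t) (S.ph t) = 2
    · apply bud_one (by omega) e2
      have j1 := w4 s hs
      have j2 := w4 t hk
      have e3 : exL S' ↔ exL S := by
        unfold exL; simp only [ek, unp]; grind
      have e4 : GA S → GA S' ∧ twoT S' := by
        rintro ⟨a, h1, h2, h3⟩
        refine ⟨⟨a, ?_, ?_, ?_⟩, a, t, ?_⟩
        · grind
        · grind
        · unfold unp at ek; grind (splits := 20)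
        · unfold unp at ek; grind
      have e5 : ¬ exP S → ¬ exP S' ∧ (exA S' → twoT S') := by
        unfold exP
        intro h
        refine ⟨by unfold unp at ek; grind, ?_⟩
        rintro ⟨a, ha⟩
        refine ⟨a, t, ?_⟩
        unfold unp at ek; grind
      have e6 : exN S' := ⟨t, by rw [ep]; simp [hst.symm]⟩
      clear ek ep ea j1 j2 w4 hW hW' hw hS' ht
      unfold d2
      grind
    · apply bud_of 2 (by have j1 := w4 s hs; have j2 := w4 t hk; omega)
      rw [if_pos e2]
      split_ifs <;> omega
  · intro Y hY h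
    have hy := inY_of_sat hY
    have hs : Y s = some p := hY
    obtain ⟨i1, i2, i3, i4, i5, i6, i7, i8, i9⟩ := h
    constructor <;> simp only [put, chg, isD, unp] <;> grind
  · intro Y hY h
    have hy := inY_of_sat hY
    have hs : Y s = some p := hY
    obtain ⟨i1, i2⟩ := h
    simp only [chg] at ht
    constructor <;> simp only [put, chg, isD, unp] <;> grind

end Pool.Agent.P.MP_dee2e2_lc.X
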