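import Pool.Agent.P.MP_dee2e2_lc.X.Op1

namespace Pool.Agent.P.MP_dee2e2_lc.X
open Finset
open scoped Classical

variable {k : ℕ} {P : Type}

/-- pinned cells holding `p` become shadows -/
noncomputable def shd (S : St k P) (p : P) : St k P where
  v := S.v
  ph := S.ph
  kd a := if S.kd a = .DP ∧ S.v a = some p then .S else S.kd a
  age := S.age
  phi := S.phi

/-- active cells become frozen -/
def frz (S : St k P) : St k P where
  v := S.v
  ph := S.ph
  kd a := if act (S.kd a) then .F else S.kd a
  age := S.age
  phi := S.phi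

/-- floater after a pin -/
noncomputable def pinf (S : St k P) (s : Fin k) : Option (Option P) :=
  if S.phi ≠ none ∨ (¬ act (S.kd s) ∧
    ((∀ a, S.kd a ≠ .Z) ∨ ∀ a b, act (S.kd a) → act (S.kd b) → a = b)) then some (S.v s)
  else none

lemma W_shd {S : St k P} (hI : Inv S) (s : Fin k) (p : P) :
    W (shd S p) ≤ W S ∨ (W (shd S p) ≤ W S + 1 ∧ ∃ d, S.kd d = .DP ∧ S.v d = some p) := by
  by_cases h : ∃ d, S.kd d = .DP ∧ S.v d = some p
  · refine Or.inr ⟨?_, h⟩
    obtain ⟨d, h1, h2⟩ := h
    have := sum_cmp (fun a => wt ((shd S p).kd a) ((shd S p).ph a))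
      (fun a => wt (S.kd a) (S.ph a)) d d d 0 1 0 (by
        intro a
        have := hI.inj a d
        simp only [shd]
        by_cases e : S.kd a = .DP ∧ S.v a = some p
        · have : a = d := by grind
          subst this
          simp [h1, h2, wt]
        · simp [e])
    simpa [W] using this
  · left
    have := sum_cmp (fun a => wt ((shd S p).kd a) ((shd S p).ph a))
      (fun a => wt (S.kd a) (S.ph a)) s s s 0 0 0 (by
        intro a
        have e : ¬ (S.kd a = .DP ∧ S.v a = some p) := fun e => h ⟨a, e⟩
        simp [shd, e])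
    simpa [W] using this

theorem good_pin {S : St k P} (hI : Inv S) {s : Fin k} {p : P}
    (hL : ∀ a, S.kd a ≠ .L) (hA : exA S) (hs : isT (S.kd s) ∨ S.kd s = .AP)
    (hno : ∀ a, isT (S.kd a) ∨ S.kd a = .AP → S.v a ≠ some p)
    (hf : S.phi = none ∨ S.phi = some (some p)) :
    Good1 S ⟨p, some s⟩ (put (shd S p) s p .DP (pinf S s)) [(s, p)] := by
  have ht := lt_top (shd S p)
  have hk : ∀ a, isT (S.kd a) ∨ S.kd a = .AP ∨ S.kd a = .DP ∨ S.kd a = .S := by
    intro a
    have := hL a
    cases e : S.kd a <;> simp_all [isT]
  have hpf : pinf S s = none ∨ pinf S s = some (S.v s) := by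
    unfold pinf; split_ifs <;> simp
  refine ⟨?_, sat_phys (c := s) (by simp [put]) (by simp [put]) (by simp),
    below_one (by intro a h; simp only [put, shd]; grind) (by simp [put]), ?_, ?_, ?_⟩
  · obtain ⟨i1, i2, i3, i4, i5, i6, i7, i8⟩ := hI
    generalize pinf S s = f at *
    refine ⟨?_, ?_, ?_, ?_, ?_, ?_, ?_, ?_⟩ <;> simp only [put, shd]
    · grind
    · grind
    · grind
    · grind
    · grind
    · intro a ha
      by_cases e : S.v a = some p
      · exact ⟨s, by grind⟩
      · obtain ⟨b, hb⟩ := i6 a (by grind)
        exact ⟨b, by grind⟩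
    · grind
    · grind
  · have hW := W_put (shd S p) s p .DP (pinf S s)
    have e0 : wt ((shd S p).kd s) ((shd S p).ph s) = wt (S.kd s) (S.ph s) := by
      have : S.kd s ≠ .DP := by grind
      simp [shd, this]
    rw [e0] at hW
    have w3 : wt .DP true = 0 := rfl
    have ef : (put (shd S p) s p .DP (pinf S s)).phi = pinf S s := rfl
    generalize hS' : put (shd S p) s p .DP (pinf S s) = S' at *
    have ek : ∀ a, S'.kd a = if a = s then .DP else
        if S.kd a = .DP ∧ S.v a = some p then .S else S.kd a := by
      intro a; rw [← hS']; rfl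
    have ep : ∀ a, a ≠ s → S'.ph a = S.ph a := by
      intro a h1; rw [← hS']; simp [put, shd, h1]
    have ea : ∀ a, a ≠ s → S'.age a = S.age a := by
      intro a h1; rw [← hS']; simp [put, shd, h1]
    have l1 : ¬ exL S := by unfold exL; grind
    have l2 : ¬ exL S' := by unfold exL; grind
    have hd : W (shd S p) ≤ W S ∨ (W (shd S p) ≤ W S + 1 ∧ sd S) := by
      rcases W_shd hI s p with h | ⟨h, d, h1, h2⟩
      · exact Or.inl h
      · refine Or.inr ⟨h, ?_, d, h1⟩
        have := hI.fr d
        grind
    have t1 : twoT S → exT S' := by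
      rintro ⟨a, b, h1, h2, h3⟩
      by_cases e : a = s
      · exact ⟨b, by grind⟩
      · exact ⟨a, by grind⟩
    have g1 : S.kd s ≠ .AT → GA S → GA S' ∧ exA S' := by
      rintro h ⟨a, h1, h2, h3⟩
      exact ⟨⟨a, by grind⟩, a, by grind⟩
    have q2 := d2_N l1
    have q2' := d2_N l2
    unfold Phi
    by_cases c1 : S.kd s = .Z ∨ S.kd s = .AT
    · have w : wt (S.kd s) (S.ph s) = 3 := by rcases c1 with h | h <;> simp [h, wt]
      have x1 : d1 S := Or.inr (Or.inl ⟨s, by grind⟩)
      have x2 : sd S → d2 S → d1 S' := fun a b => Or.inr (Or.inl (t1 (by grind)))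
      clear ek ep ea hS' ht hk hno
      grind
    · by_cases c2 : S.kd s = .AP
      · have w : wt (S.kd s) (S.ph s) = 2 := by simp [c2, wt]
        have x0 : exP S := ⟨s, c2⟩
        have x1 : exT S' ↔ exT S := by unfold exT; grind
        have x2 : twoT S → twoT S' := by
          rintro ⟨a, b, h1, h2, h3⟩
          exact ⟨a, b, h1, by grind⟩
        have x3 := g1 (by grind)
        clear ek ep ea hS' ht hk hno
        unfold d1
        grind
      · have w : 2 ≤ wt (S.kd s) (S.ph s) := by
          rcases hs with (h | h | h | h) | h <;> rw [h] <;> cases S.ph s <;> simp [wt]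
        have x1 : d1 S := Or.inr (Or.inl ⟨s, by grind⟩)
        have x2 : exA S' := by
          obtain ⟨a, ha⟩ := hA
          exact ⟨a, by grind⟩
        have x3 := g1 (by grind)
        have x4 : exP S' ↔ exP S := by unfold exP; grind
        have x5 : ¬ exT S' → exP S' ∧ ¬ sd S' := by
          intro h
          have h' : ∀ a, ¬ isT (S'.kd a) := fun a e => h ⟨a, e⟩
          obtain ⟨a, ha⟩ := hA
          refine ⟨⟨a, by grind⟩, fun e => ?_⟩
          have e1 := e.1
          rw [ef] at e1
          unfold pinf at e1
          rw [if_pos (Or.inr ⟨by grind, Or.inl (by grind)⟩)] at e1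
          simp at e1
        have x6 : ¬ twoT S' → (GA S ∨ ¬ exP S) → ¬ sd S' := by
          intro h h2 e
          have h' : ∀ a b, isT (S'.kd a) → isT (S'.kd b) → a = b := by
            intro a b h1 h2
            by_contra e
            exact h ⟨a, b, e, h1, h2⟩
          have cond : (∀ a, S.kd a ≠ .Z) ∨ ∀ a b, act (S.kd a) → act (S.kd b) → a = b := by
            rcases h2 with ⟨a, h1, -⟩ | h2
            · left
              intro b hb
              have := h' a b
              grind
            · right
              intro a b ha hb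
              have := h' a b
              unfold exP at h2
              grind
          have e1 := e.1
          rw [ef] at e1
          unfold pinf at e1
          rw [if_pos (Or.inr ⟨by grind, cond⟩)] at e1
          simp at e1
        clear ek ep ea hS' ht hk hno
        unfold d1 at *
        grind
  · intro Y hY h
    have hy := inY_of_sat hY
    have hs : Y s = some p := hY
    obtain ⟨i1, i2, i3, i4, i5, i6, i7, i8, i9⟩ := h
    constructor <;> simp only [put, shd, isD, pinf] <;> grind
  · intro Y hY h
    have hy := inY_of_sat hY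
    have hs : Y s = some p := hY
    obtain ⟨i1, i2⟩ := h
    constructor <;> simp only [put, shd, isD] <;> grind

theorem good_freeze {S : St k P} (hI : Inv S) {t u : Fin k} {p : P}
    (hk : S.kd t = .L) (hu : isT (S.kd u) ∨ S.kd u = .AP) (hv : S.v u = some p) :
    Good1 S ⟨p, some t⟩ (put (chg (frz S) u (S.v t) false .F 0) t p .DP (some none))
      [(t, p)] := by
  have ht := lt_top (chg (frz S) u (S.v t) false .F 0)
  have htu : t ≠ u := by grind
  refine ⟨?_, sat_phys (c := t) (by simp [put]) (by simp [put]) (by simp),
    below_one (by intro a h; simp only [put, chg, frz]; grind) (by simp [put]), ?_, ?_, ?_⟩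
  · obtain ⟨i1, i2, i3, i4, i5, i6, i7, i8⟩ := hI
    refine ⟨?_, ?_, ?_, ?_, ?_, ?_, ?_, ?_⟩ <;> simp only [put, chg, frz]
    · grind
    · grind
    · grind
    · grind
    · grind
    · intro a ha
      obtain ⟨b, hb⟩ := i6 a (by grind)
      exact ⟨b, by grind⟩
    · grind
    · grind
  · generalize hS' : put (chg (frz S) u (S.v t) false .F 0) t p .DP (some none) = S' at *
    have ek : ∀ a, S'.kd a = if a = t then .DP else if a = u then .F else
        if act (S.kd a) then .F else S.kd a := by
      intro a; rw [← hS']; rfl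
    have ep : ∀ a, S'.ph a = if a = t then true else if a = u then false else S.ph a := by
      intro a; rw [← hS']; rfl
    have i1 := hI.l1
    have l1 : exL S := ⟨t, hk⟩
    have l2 : ¬ exL S' := by unfold exL; grind
    have x1 : d2 S' := by
      rw [d2_N l2]
      refine ⟨⟨u, by grind⟩, Or.inr ?_, Or.inr (Or.inl ⟨u, by grind⟩), ?_⟩
      · unfold exP; grind
      · unfold exA; grind
    have x2 := d1_of_d2 x1
    have hz := hI.lz t
    have hp := hI.pp
    have key : ∀ (c : Fin k) (n : ℕ), (n = 0 ∨ (n = 1 ∧ S.kd c = .AT ∧ S.ph c = true)) →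
        W S' + n ≤ W S := by
      intro c n hn
      have := sum_cmp (fun a => wt (S'.kd a) (S'.ph a))
        (fun a => wt (S.kd a) (S.ph a)) t u c 1 1 n (by
          intro a
          have j1 := hz a hk
          have j2 := hp a
          rw [ek, ep]
          cases e1 : S.kd a <;> cases e2 : S.ph a <;> grind [wt])
      unfold W
      omega
    unfold Phi
    rw [if_pos x1, if_pos x2]
    by_cases g : GA S
    · obtain ⟨a, h1, h2, -⟩ := g
      have := key a 1 (Or.inr ⟨rfl, h1, h2⟩)
      simp only [List.length_singleton]
      omega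
    · have := key t 0 (Or.inl rfl)
      rw [if_neg (show ¬ d2 S from fun h => g ((d2_L l1).1 h))]
      simp only [List.length_singleton]
      omega
  · intro Y hY h
    have hy := inY_of_sat hY
    have hs : Y t = some p := hY
    obtain ⟨i1, i2, i3, i4, i5, i6, i7, i8, i9⟩ := h
    have j1 := hI.l1
    have j2 := hI.fr u
    constructor <;> simp only [put, chg, isD, frz] <;> grind
  · intro Y hY h
    have hy := inY_of_sat hY
    have hs : Y t = some p := hY
    obtain ⟨i1, i2⟩ := h
    have j1 := hI.l1
    constructor <;> simp only [put, chg, isD, frz] <;> grind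

end Pool.Agent.P.MP_dee2e2_lc.X
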