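import Pool.Agent.P.MP_dee2e2_lc.X.Op1

namespace Pool.Agent.P.MP_dee2e2_lc.X
open Finset
open scoped Classical

variable {k : ℕ} {P : Type}

def rk : Kd → Bool → Kd
  | .L, true => .AT
  | .DT, _ => .AT
  | .DP, _ => .AP
  | _, _ => .Z

/-- the state at the start of a new epoch -/
def reset (S : St k P) : St k P where
  v a := if S.kd a = .S then none else S.v a
  ph a := if S.kd a = .S then false else S.ph a
  kd a := rk (S.kd a) (S.ph a)
  age a := if S.kd a = .L then S.top else S.age a
  phi := none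

lemma rk_cases (x : Kd) (b : Bool) :
    (rk x b = .AT ∧ (x = .DT ∨ (x = .L ∧ b = true))) ∨ (rk x b = .AP ∧ x = .DP) ∨
      (rk x b = .Z ∧ x ≠ .DT ∧ x ≠ .DP ∧ (x ≠ .L ∨ b = false)) := by
  cases x <;> cases b <;> simp [rk]

lemma inv_reset {S : St k P} (hI : Inv S) : Inv (reset S) := by
  obtain ⟨i1, i2, i3, i4, i5, i6, i7, i8⟩ := hI
  have h := fun a => rk_cases (S.kd a) (S.ph a)
  refine ⟨fun a b => ?_, fun a => ?_, fun a => ?_, fun a b => ?_, fun a => ?_, fun a => ?_,
    fun a => ?_, fun a b => ?_⟩ <;> simp only [reset] <;> have := h a <;> grind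

lemma h0_reset {S : St k P} {Y : Cache k P} (h : H1 S Y) : H0 (reset S) Y := by
  obtain ⟨i1, i2⟩ := h
  have ht := lt_top S
  have h := fun a => rk_cases (S.kd a) (S.ph a)
  refine ⟨fun a => ?_, fun a => ?_, fun a => ?_, fun a b => ?_, fun a b => ?_, fun e => ?_,
    fun o a => ?_, fun a b => ?_, fun a => ?_⟩
  · simp only [reset, isD]; have := h a; grind
  · simp only [reset]; have := h a; grind
  · simp only [reset]; have := h a; grind
  · simp only [reset]; have := h a; have := h b; have := i1 a b; grind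
  · simp only [reset]; have := h a; have := h b; have := i2 a b; grind
  · exact absurd rfl e
  · simp [reset]
  · simp only [reset]; have := h a; grind
  · simp only [reset]; have := h a; grind

lemma h1_reset (S : St k P) (Y : Cache k P) : H1 (reset S) Y := by
  have h := fun a => rk_cases (S.kd a) (S.ph a)
  refine ⟨fun a b => ?_, fun a b => ?_⟩ <;> simp only [reset, isD] <;> have := h a <;> grind

lemma below_reset {S : St k P} {C : Cache k P} (h : below S.phys C) :
    below (reset S).phys C := by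
  intro a q ha
  apply h
  simp only [St.phys, reset] at ha ⊢
  grind

lemma inY_update {Y : Cache k P} {j : Fin k} {x o : Option P} (h : inY Y o) (hj : Y j ≠ o) :
    inY (Function.update Y j x) o := by
  obtain ⟨h1, a, h2⟩ := h
  refine ⟨h1, a, ?_⟩
  rw [Function.update_of_ne (by rintro rfl; exact hj h2), h2]

lemma h1_move {S : St k P} (hI : Inv S) {Y : Cache k P} (h : H0 S Y) (j : Fin k)
    (x : Option P) : H1 S (Function.update Y j x) := by
  have key : ∀ a, isD S a → ¬ inY (Function.update Y j x) (S.v a) → Y j = S.v a := by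
    intro a h1 h2
    by_contra e
    exact h2 (inY_update (h.dA a h1) e)
  have i1 := hI.inj
  have i2 := hI.nn
  have i3 := h.pin
  constructor
  · intro a b h1 h2 h3 h4
    have := key a h1 h3
    have := key b h2 h4
    grind
  · intro z a h1 h2 h3 h4 _
    have := key z h1 h2
    rw [Function.update_of_ne (by grind)]
    exact i3 a (Or.inl h3)

lemma ghost_reset (hk : 1 ≤ k) {S : St k P} (hI : Inv S) (r : Request k P) :
    ∃ Y, H0 (reset S) Y ∧ Satisfies Y r := by
  have hR := inv_reset hI
  have h := fun a => rk_cases (S.kd a) (S.ph a)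
  have key : ∀ j, H0 (reset S) (Function.update (reset S).v j (some r.page)) := by
    intro j
    have al : ∀ a, a ≠ j → isA ((reset S).kd a) →
        inY (Function.update (reset S).v j (some r.page)) ((reset S).v a) := by
      intro a h1 h2
      refine inY_of (a := a) (Function.update_of_ne h1 _ _) (fun e => ?_)
      have := hR.nn a e
      grind
    have e : ∀ a, (reset S).kd a = rk (S.kd a) (S.ph a) := fun a => rfl
    refine ⟨fun a => ?_, fun a => ?_, fun a => ?_, fun a b => ?_, fun a b => ?_, fun e => ?_,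
      fun o a => ?_, fun a b => ?_, fun a => ?_⟩
    · simp only [isD, e]; have := h a; grind
    · simp only [e]; have := h a; grind
    · simp only [e]; have := h a; grind
    · have := al a; have := al b; grind
    · intro h1 h2 h3 h4 h5
      have := al a
      exact Function.update_of_ne (by grind) _ _
    · exact absurd rfl e
    · simp [reset]
    · simp only [e]; have := h a; grind
    · simp only [e]; have := h a; grind
  obtain ⟨p, _ | s⟩ := r
  · exact ⟨_, key ⟨0, hk⟩, ⟨0, hk⟩, by simp⟩
  · exact ⟨_, key s, show Function.update _ s _ s = _ by simp⟩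

lemma W_reset (S : St k P) (c : Fin k) (n : ℕ)
    (h : wt (rk (S.kd c) (S.ph c)) (S.ph c) + n ≤ wt (S.kd c) (S.ph c) + 2) :
    W (reset S) + n ≤ W S + 2 * k := by
  have := sum_cmp (fun a => wt ((reset S).kd a) ((reset S).ph a))
    (fun a => wt (S.kd a) (S.ph a) + 2) c c c n 0 0 (by
      intro a
      simp only [reset]
      by_cases e : a = c
      · subst e
        revert h
        cases S.kd a <;> cases S.ph a <;> simp [wt, rk]
      · cases S.kd a <;> cases S.ph a <;> simp [wt, rk, e])
  simp only [Finset.sum_add_distrib, Finset.sum_const, card_univ, Fintype.card_fin,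
    smul_eq_mul] at this
  unfold W
  omega

lemma phi_reset (hk : 1 ≤ k) {S : St k P} (hI : Inv S) : Phi (reset S) + 1 ≤ Phi S + 2 * k := by
  have ht := lt_top S
  have h := fun a => rk_cases (S.kd a) (S.ph a)
  have e : ∀ a, (reset S).kd a = rk (S.kd a) (S.ph a) := fun a => rfl
  have l2 : ¬ exL (reset S) := by
    rintro ⟨a, ha⟩; have := h a; grind
  have s2 : ¬ sd (reset S) := by
    rintro ⟨-, a, ha⟩; have := h a; grind
  have x1 : d1 (reset S) := by
    have := h ⟨0, hk⟩
    by_cases c : S.kd ⟨0, hk⟩ = .DP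
    · exact Or.inr (Or.inr ⟨⟨⟨0, hk⟩, by grind⟩, s2⟩)
    · exact Or.inr (Or.inl ⟨⟨0, hk⟩, by grind⟩)
  have x2 : GA (reset S) → d2 (reset S) := by
    intro g
    rw [d2_N l2]
    obtain ⟨a, h1, h2⟩ := id g
    exact ⟨⟨a, by grind⟩, Or.inl g, Or.inl ⟨a, by grind⟩, fun h => s2 h.1⟩
  have x3 : GD S → GA (reset S) ∨ exL S := by
    rintro ⟨a, h1, h2, h3⟩
    left
    refine ⟨a, ?_, ?_, fun b => ?_⟩ <;> simp only [reset]
    · simp [h1, rk]
    · simp [h1, h2]
    · have := h b; grind
  have x4 : ∀ t, S.kd t = .L → S.ph t = true → GA (reset S) := by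
    intro a h1 h2
    refine ⟨a, ?_, ?_, fun b => ?_⟩ <;> simp only [reset]
    · simp [h1, h2, rk]
    · simp [h1, h2]
    · have := h b; grind
  have w0 := W_reset S ⟨0, hk⟩ 0 (by cases S.kd ⟨0, hk⟩ <;> cases S.ph ⟨0, hk⟩ <;> simp [wt, rk])
  have w1 : ∀ c, (isT (S.kd c) ∨ S.kd c = .AP ∨ (S.kd c = .L ∧ S.ph c = false)) →
      W (reset S) + 1 ≤ W S + 2 * k := by
    intro c hc
    apply W_reset S c
    revert hc
    cases S.kd c <;> cases S.ph c <;> simp [wt, rk, isT]
  have w2 : ∀ c, (S.kd c = .Z ∨ S.kd c = .AT ∨ (isT (S.kd c) ∧ S.ph c = false)) →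
      W (reset S) + 2 ≤ W S + 2 * k := by
    intro c hc
    apply W_reset S c
    revert hc
    cases S.kd c <;> cases S.ph c <;> simp [wt, rk, isT]
  unfold Phi
  rw [if_pos x1]
  by_cases c2 : d2 S
  · have : W (reset S) + 2 ≤ W S + 2 * k ∨ (W (reset S) + 1 ≤ W S + 2 * k ∧ d2 (reset S)) := by
      by_cases g : GA S
      · obtain ⟨a, h1, -⟩ := g
        exact Or.inl (w2 a (Or.inr (Or.inl h1)))
      · have l1 : ¬ exL S := fun l => g ((d2_L l).1 c2)
        obtain ⟨⟨a, y1⟩, y2, y3, -⟩ := (d2_N l1).1 c2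
        have y4 : ∀ b, S.kd b ≠ .AP := fun b e => (y2.resolve_left g) ⟨b, e⟩
        rcases y3 with ⟨b, hb⟩ | ⟨b, hb⟩ | y3
        · exact Or.inl (w2 b (by have := y4 b; grind))
        · refine Or.inl (w2 b (Or.inr (Or.inr ⟨?_, hb⟩)))
          have j1 := hI.pp b
          have j2 : S.kd b ≠ .L := fun e => l1 ⟨b, e⟩
          cases e : S.kd b <;> simp_all [isT]
        · exact Or.inr ⟨w1 a (Or.inl y1), x2 ((x3 y3).resolve_right l1)⟩
    grind
  · by_cases c1 : d1 S
    · have : W (reset S) + 1 ≤ W S + 2 * k ∨ d2 (reset S) := by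
        rcases c1 with ⟨a, ha⟩ | ⟨a, ha⟩ | ⟨⟨a, ha⟩, -⟩
        · cases e : S.ph a
          · exact Or.inl (w1 a (Or.inr (Or.inr ⟨ha, e⟩)))
          · exact Or.inr (x2 (x4 a ha e))
        · exact Or.inl (w1 a (Or.inl ha))
        · exact Or.inl (w1 a (Or.inr (Or.inl ha)))
      grind
    · grind

end Pool.Agent.P.MP_dee2e2_lc.X
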