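import Pool.Agent.P.MP_dee2e2_lc.Defs

/-! State, invariant, hulls and budget of the `(2k-1)`-competitive algorithm. -/

namespace Pool.Agent.P.MP_dee2e2_lc.X
open Finset
open scoped Classical

/-- kinds of cells -/
inductive Kd | Z | AT | AP | F | DT | DP | S | L
  deriving DecidableEq

structure St (k : ℕ) (P : Type) where
  v : Fin k → Option P
  ph : Fin k → Bool
  kd : Fin k → Kd
  age : Fin k → ℕ
  phi : Option (Option P)

variable {k : ℕ} {P : Type}

abbrev act (x : Kd) : Prop := x = .Z ∨ x = .AT ∨ x = .AP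
abbrev isT (x : Kd) : Prop := x = .Z ∨ x = .AT ∨ x = .F ∨ x = .DT
abbrev isA (x : Kd) : Prop := x = .AT ∨ x = .AP

def inY (Y : Cache k P) (o : Option P) : Prop := o ≠ none ∧ ∃ a, Y a = o

lemma inY_of {Y : Cache k P} {a : Fin k} {o : Option P} (h : Y a = o) (ho : o ≠ none) :
    inY Y o := ⟨ho, a, h⟩

lemma inY_ne {Y : Cache k P} {o : Option P} (h : inY Y o) : o ≠ none := h.1

/-- a fresh age -/
def St.top (S : St k P) : ℕ := univ.sup S.age + 1

lemma lt_top (S : St k P) (a : Fin k) : S.age a < S.top :=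
  Nat.lt_succ_of_le (Finset.le_sup (f := S.age) (mem_univ a))

/-- the physical cache -/
def St.phys (S : St k P) : Cache k P := fun a => if S.ph a = true then S.v a else none

structure Inv (S : St k P) : Prop where
  l1 : ∀ a b, S.kd a = .L → S.kd b = .L → a = b
  nn : ∀ a, S.v a = none → S.kd a = .Z
  pp : ∀ a, S.kd a = .AP ∨ S.kd a = .DP ∨ S.kd a = .S → S.ph a = true
  inj : ∀ a b, S.kd a ≠ .S → S.kd b ≠ .S → S.v a ≠ none → S.v a = S.v b → a = b
  fr : ∀ a, S.kd a ≠ .S → S.v a ≠ none → S.phi ≠ some (S.v a)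
  sh : ∀ a, S.kd a = .S → ∃ b, S.kd b = .DP ∧ S.v b = S.v a
  lp : ∀ t, S.kd t = .L → S.phi ≠ none ∧ S.phi ≠ some none
  lz : ∀ t a, S.kd t = .L → S.kd a ≠ .Z

abbrev isD (S : St k P) (a : Fin k) : Prop :=
  S.kd a = .DT ∨ S.kd a = .DP ∨ (S.kd a = .L ∧ S.ph a = true)

structure H1 (S : St k P) (Y : Cache k P) : Prop where
  one : ∀ a b, isD S a → isD S b → ¬ inY Y (S.v a) → ¬ inY Y (S.v b) → a = b
  ord : ∀ z a, isD S z → ¬ inY Y (S.v z) → S.kd a = .DP → a ≠ z →
    (S.kd z = .L ∨ S.age a ≤ S.age z) → Y a = S.v a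

structure H0 (S : St k P) (Y : Cache k P) : Prop where
  dA : ∀ a, isD S a → inY Y (S.v a)
  pin : ∀ a, S.kd a = .DP ∨ S.kd a = .S → Y a = S.v a
  fA : ∀ a, S.kd a = .F → inY Y (S.v a)
  one : ∀ a b, isA (S.kd a) → isA (S.kd b) → ¬ inY Y (S.v a) → ¬ inY Y (S.v b) → a = b
  ord : ∀ z a, isA (S.kd z) → ¬ inY Y (S.v z) → S.kd a = .AP → a ≠ z →
    S.age a ≤ S.age z → Y a = S.v a
  tot : S.phi ≠ none → ∀ a b, act (S.kd a) → act (S.kd b) →
    ¬ inY Y (S.v a) → ¬ inY Y (S.v b) → a = b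
  nst : ∀ o z, S.phi = some o → act (S.kd z) → ¬ inY Y (S.v z) → inY Y o
  l1 : ∀ t z, S.kd t = .L → act (S.kd z) → ¬ inY Y (S.v z) →
    S.phi = some (Y t) ∧ inY Y (S.v t)
  l2 : ∀ t, S.kd t = .L → inY Y (S.v t) ∨ S.phi = some (Y t)

def wt : Kd → Bool → ℕ
  | .Z, _ => 3
  | .AT, _ => 3
  | .AP, _ => 2
  | .F, b => if b = true then 2 else 3
  | .DT, b => if b = true then 2 else 3
  | .DP, _ => 0
  | .S, _ => 1
  | .L, b => if b = true then 1 else 2

def W (S : St k P) : ℕ := ∑ a, wt (S.kd a) (S.ph a)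

def exL (S : St k P) : Prop := ∃ t, S.kd t = .L
def exT (S : St k P) : Prop := ∃ a, isT (S.kd a)
def twoT (S : St k P) : Prop := ∃ a b, a ≠ b ∧ isT (S.kd a) ∧ isT (S.kd b)
def exA (S : St k P) : Prop := ∃ a, act (S.kd a)
def exN (S : St k P) : Prop := ∃ a, S.ph a = false
def exP (S : St k P) : Prop := ∃ a, S.kd a = .AP
def GA (S : St k P) : Prop :=
  ∃ a, S.kd a = .AT ∧ S.ph a = true ∧ ∀ b, S.kd b = .AP → S.age b < S.age a
def GD (S : St k P) : Prop :=
  ∃ a, S.kd a = .DT ∧ S.ph a = true ∧ ∀ b, S.kd b = .DP → S.age b < S.age a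
def sd (S : St k P) : Prop := S.phi = none ∧ ∃ a, S.kd a = .DP

def d1 (S : St k P) : Prop := exL S ∨ exT S ∨ (exP S ∧ ¬ sd S)
def d2 (S : St k P) : Prop :=
  (exL S ∧ GA S) ∨ (¬ exL S ∧ exT S ∧ (GA S ∨ ¬ exP S) ∧ (exA S ∨ exN S ∨ GD S) ∧
    ¬ (sd S ∧ ¬ twoT S ∧ exA S))

noncomputable def Phi (S : St k P) : ℕ :=
  W S + (if d1 S then 0 else 1) + (if d2 S then 0 else 1)

def below (c C : Cache k P) : Prop := ∀ a q, c a = some q → C a = some q

/-- one non-ending step that serves `r` with the retrievals `l` -/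
structure Good1 (S : St k P) (r : Request k P) (S' : St k P) (l : List (Fin k × P)) : Prop where
  inv : Inv S'
  sat : Satisfies S'.phys r
  bel : ∀ C, below S.phys C → below S'.phys (retrieve C l)
  bud : l.length + Phi S' ≤ Phi S
  h0 : ∀ Y, Satisfies Y r → H0 S Y → H0 S' Y
  h1 : ∀ Y, Satisfies Y r → H1 S Y → H1 S' Y

lemma d1_of_d2 {S : St k P} (h : d2 S) : d1 S := by
  unfold d1; unfold d2 at h; tauto

/-- comparison of sums that differ in at most three places -/
lemma sum_cmp (f g : Fin k → ℕ) (s t u : Fin k) (α β γ : ℕ)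
    (h : ∀ a, f a + (if a = s then α else 0) + (if a = u then γ else 0) ≤
      g a + (if a = t then β else 0)) :
    ∑ a, f a + α + γ ≤ ∑ a, g a + β := by
  have := Finset.sum_le_sum (s := (univ : Finset (Fin k))) (fun a _ => h a)
  simpa [Finset.sum_add_distrib, Finset.sum_ite_eq'] using this

lemma below_one {S S' : St k P} {c : Fin k} {p : P}
    (h : ∀ a, a ≠ c → S'.ph a = true → S.ph a = true ∧ S'.v a = S.v a)
    (hc : S'.v c = some p) :
    ∀ C, below S.phys C → below S'.phys (retrieve C [(c, p)]) := by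
  intro C hC a q ha
  have e : retrieve C [(c, p)] = Function.update C c (some p) := rfl
  rw [e]
  unfold St.phys at ha
  by_cases hac : a = c
  · subst hac
    split_ifs at ha with h1
    · rw [hc] at ha; simpa using ha
  · rw [Function.update_of_ne hac]
    split_ifs at ha with h1
    obtain ⟨h2, h3⟩ := h a hac h1
    apply hC
    unfold St.phys
    rw [if_pos h2, ← h3, ha]

lemma sat_phys {S : St k P} {c : Fin k} {p : P} {o : Option (Fin k)} (h1 : S.ph c = true)
    (h2 : S.v c = some p) (h3 : ∀ s, o = some s → s = c) : Satisfies S.phys ⟨p, o⟩ := by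
  cases o with
  | none => exact ⟨c, by simp [St.phys, h1, h2]⟩
  | some s =>
    have := h3 s rfl
    subst this
    show S.phys s = some p
    simp [St.phys, h1, h2]

lemma inY_of_sat {Y : Cache k P} {p : P} {o : Option (Fin k)} (h : Satisfies Y ⟨p, o⟩) :
    inY Y (some p) := by
  cases o with
  | none => obtain ⟨a, ha⟩ := h; exact ⟨by simp, a, ha⟩
  | some s => exact ⟨by simp, s, h⟩

end Pool.Agent.P.MP_dee2e2_lc.X
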