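import Pool.Agent.P.MP_dee2e2_lc.X.Op2
import Pool.Agent.P.MP_dee2e2_lc.X.Op3
import Pool.Agent.P.MP_dee2e2_lc.X.Reset

namespace Pool.Agent.P.MP_dee2e2_lc.X
open Finset
open scoped Classical

variable {k : ℕ} {P : Type}

lemma kd_cases (x : Kd) : isT x ∨ x = .AP ∨ x = .DP ∨ x = .S ∨ x = .L := by
  cases x <;> simp [isT]

lemma good_hit {S : St k P} (hI : Inv S) {r : Request k P} (h : Satisfies S.phys r) :
    Good1 S r S [] :=
  ⟨hI, h, fun _ h => h, by simp, fun _ _ h => h, fun _ _ h => h⟩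

lemma good_virt {S : St k P} (hI : Inv S) {c : Fin k} {p : P} {o : Option (Fin k)}
    (ho : ∀ s, o = some s → s = c) (hv : S.v c = some p) :
    ∃ S' l, Good1 S ⟨p, o⟩ S' l := by
  cases hp : S.ph c
  · by_cases hk : S.kd c = .L
    · exact ⟨_, _, good_loadL hI ho hv hp hk⟩
    · exact ⟨_, _, good_load hI ho hv hp hk⟩
  · exact ⟨_, _, good_hit hI (sat_phys hp hv ho)⟩

theorem step_gen {S : St k P} (hI : Inv S) (p : P) :
    (∃ S' l, Good1 S ⟨p, none⟩ S' l) ∨ ∀ Y, H0 S Y → ¬ Satisfies Y ⟨p, none⟩ := by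
  by_cases h1 : ∃ c, S.v c = some p
  · obtain ⟨c, hc⟩ := h1
    exact Or.inl (good_virt hI (by simp) hc)
  push Not at h1
  by_cases h2 : (∀ a, S.kd a ≠ .L) ∧ exA S
  · obtain ⟨hL, hA⟩ := h2
    left
    by_cases hZ : ∃ u, S.kd u = .Z
    · obtain ⟨u, hu⟩ := hZ
      exact ⟨_, _, good_landT hI h1 hL (Or.inl hu)⟩
    push Not at hZ
    obtain ⟨u, hu, hm⟩ := Finset.exists_min_image (univ.filter (fun a => act (S.kd a))) S.age
      (by obtain ⟨a, ha⟩ := hA; exact ⟨a, by simp [ha]⟩)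
    simp only [mem_filter, mem_univ, true_and] at hu hm
    rcases hu with hu | hu | hu
    · exact absurd hu (hZ u)
    · exact ⟨_, _, good_landT hI h1 hL (Or.inr ⟨hu, fun b hb => hm b (Or.inr (Or.inr hb))⟩)⟩
    · exact ⟨_, _, good_landP hI h1 hL hZ hu hm⟩
  by_cases h3 : ∃ t, S.kd t = .L ∧ S.phi = some (some p) ∧ (exA S ∨ S.ph t = false)
  · obtain ⟨t, h3, h4, h5⟩ := h3
    exact Or.inl ⟨_, _, good_reload hI (by simp) h3 h4 h5⟩
  right
  rintro Y h ⟨b, hb⟩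
  replace hb : Y b = some p := hb
  have j1 := hI.lp
  have j2 := hI.l1
  have j3 := h.pin b
  have j4 := h1 b
  have := closed hI h (by grind) b (by grind)
  grind

theorem step_spe {S : St k P} (hI : Inv S) (p : P) (s : Fin k) :
    (∃ S' l, Good1 S ⟨p, some s⟩ S' l) ∨ ∀ Y, H0 S Y → ¬ Satisfies Y ⟨p, some s⟩ := by
  by_cases h1 : S.v s = some p
  · exact Or.inl (good_virt hI (by simp) h1)
  by_cases h2 : S.kd s = .DP ∨ S.kd s = .S
  · right
    intro Y h hs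
    replace hs : Y s = some p := hs
    exact h1 (by rw [← h.pin s h2, hs])
  have j1 := hI.lp
  have j2 := hI.l1
  have j3 := kd_cases (S.kd s)
  by_cases h3 : ∃ u, (isT (S.kd u) ∨ S.kd u = .AP) ∧ S.v u = some p
  · obtain ⟨u, h3, h4⟩ := h3
    left
    by_cases h5 : S.kd s = .L
    · exact ⟨_, _, good_freeze hI h5 h3 h4⟩
    · exact ⟨_, _, good_swap hI (by grind) h3 h4 (by grind)⟩
  push Not at h3
  by_cases h4 : S.kd s = .L
  · by_cases h5 : S.phi = some (some p) ∧ (exA S ∨ S.ph s = false)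
    · exact Or.inl ⟨_, _, good_reload hI (by simp) h4 h5.1 h5.2⟩
    right
    intro Y h hs
    replace hs : Y s = some p := hs
    obtain ⟨-, ⟨a, k1, k2⟩ | k1⟩ := closed hI h (by grind) s (by grind)
    · have := kd_cases (S.kd a)
      grind
    · grind
  by_cases h5 : ∃ t, S.kd t = .L ∧ S.v t = some p
  · obtain ⟨t, h5, h6⟩ := h5
    exact Or.inl ⟨_, _, good_swapL hI h5 h6 (by grind)⟩
  by_cases h6 : (∀ a, S.kd a ≠ .L) ∧ exA S ∧ (S.phi = none ∨ S.phi = some (some p))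
  · exact Or.inl ⟨_, _, good_pin hI h6.1 h6.2.1 (by grind) h3 h6.2.2⟩
  right
  intro Y h hs
  replace hs : Y s = some p := hs
  obtain ⟨-, ⟨a, k1, k2⟩ | k1⟩ := closed hI h (by grind) s (by grind)
  · have := kd_cases (S.kd a)
    grind
  · grind

theorem step1 {S : St k P} (hI : Inv S) (r : Request k P) :
    (∃ S' l, Good1 S r S' l) ∨ ∀ Y, H0 S Y → ¬ Satisfies Y r := by
  obtain ⟨p, _ | s⟩ := r
  · exact step_gen hI p
  · exact step_spe hI p s

end Pool.Agent.P.MP_dee2e2_lc.X
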