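import Pool.Agent.P.MP_dee2e2_lc.X.Step
import Pool.Agent.P.MP_dee2e2_lc.X.Ham

namespace Pool.Agent.P.MP_dee2e2_lc.X
open Finset
open scoped Classical

variable {k : ℕ} {P : Type}

noncomputable def lev (S : St k P) (Y : Cache k P) : ℕ :=
  if H0 S Y then 0 else if H1 S Y then 1 else 2

lemma sat_below {c C : Cache k P} (h : below c C) {r : Request k P} (hr : Satisfies c r) :
    Satisfies C r := by
  obtain ⟨p, _ | t⟩ := r
  · obtain ⟨s, hs⟩ := hr
    exact ⟨s, h s p hs⟩
  · exact h t p hr

/-- what one step of the algorithm achieves, with ratio `m` -/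
def Good (m : ℕ) (S : St k P) (r : Request k P) (S' : St k P) (l : List (Fin k × P)) : Prop :=
  Inv S' ∧ Satisfies S'.phys r ∧ (∀ C, below S.phys C → below S'.phys (retrieve C l)) ∧
    ∀ Y X : Cache k P, Satisfies X r → ∃ Y' : Cache k P,
      Phi S' + m * lev S' Y' + l.length + m * ham Y' X ≤ Phi S + m * lev S Y + m * ham Y X

lemma good_of {m : ℕ} {S S' : St k P} {r : Request k P} {l : List (Fin k × P)} (e : ℕ)
    (h1 : Inv S') (h2 : Satisfies S'.phys r)
    (h3 : ∀ C, below S.phys C → below S'.phys (retrieve C l))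
    (hb : l.length + Phi S' ≤ Phi S + m * e)
    (h4 : ∀ Y, Satisfies Y r → lev S' Y + e ≤ lev S Y)
    (h5 : ∀ Y j, Satisfies (Function.update Y j (some r.page)) r →
      lev S' (Function.update Y j (some r.page)) + e ≤ lev S Y + 1) :
    Good m S r S' l := by
  refine ⟨h1, h2, h3, fun Y X hX => ?_⟩
  by_cases hY : Satisfies Y r
  · refine ⟨Y, ?_⟩
    have := Nat.mul_le_mul_left m (h4 Y hY)
    rw [Nat.mul_add] at this
    omega
  · have key : ∃ j, X j = some r.page ∧ Y j ≠ some r.page ∧
        Satisfies (Function.update Y j (some r.page)) r := by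
      obtain ⟨p, _ | t⟩ := r
      · obtain ⟨j, hj⟩ := hX
        exact ⟨j, hj, fun h => hY ⟨j, h⟩, j, by simp⟩
      · exact ⟨t, hX, hY, show Function.update Y t _ t = _ by simp⟩
    obtain ⟨j, k1, k2, k3⟩ := key
    refine ⟨Function.update Y j (some r.page), ?_⟩
    have e1 := Nat.mul_le_mul_left m (h5 Y j k3)
    have e2 := ham_upd Y X j r.page k1 k2
    rw [← e2]
    simp only [Nat.mul_add] at e1 ⊢
    omega

theorem step_spec (hk : 1 ≤ k) (S : St k P) (hI : Inv S) (r : Request k P) :
    ∃ S' l, Good (2 * k - 1) S r S' l := by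
  rcases step1 hI r with ⟨S', l, g⟩ | hend
  · refine ⟨S', l, good_of 0 g.inv g.sat g.bel (by simpa using g.bud) (fun Y hY => ?_)
      (fun Y j hY => ?_)⟩
    · have a0 := g.h0 Y hY
      have a1 := g.h1 Y hY
      unfold lev
      grind
    · have a1 := g.h1 _ hY
      have a2 := fun h => h1_move hI (Y := Y) h j (some r.page)
      unfold lev
      grind
  · rcases step1 (inv_reset hI) r with ⟨S', l, g⟩ | hend'
    · refine ⟨S', l, good_of 1 g.inv g.sat (fun C h => g.bel C (below_reset h)) ?_
        (fun Y hY => ?_) (fun Y j hY => ?_)⟩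
      · have := g.bud
        have := phi_reset hk hI
        omega
      · have a0 := g.h0 Y hY
        have a1 := g.h1 Y hY (h1_reset S Y)
        have a2 := hend Y
        have a3 := @h0_reset _ _ S Y
        unfold lev
        grind
      · have a0 := g.h0 _ hY
        have a1 := g.h1 _ hY (h1_reset S _)
        have a2 := fun h => h0_reset (h1_move hI (Y := Y) h j (some r.page))
        unfold lev
        grind
    · obtain ⟨Y, h1, h2⟩ := ghost_reset hk hI r
      exact absurd h2 (hend' Y h1)

/-- the starting state -/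
def S0 (k : ℕ) (P : Type) : St k P :=
  ⟨fun _ => none, fun _ => false, fun _ => .Z, fun _ => 0, none⟩

lemma inv_S0 : Inv (S0 k P) := by
  constructor <;> simp [S0]

theorem run_spec (m : ℕ) (f : St k P → Request k P → St k P)
    (g : St k P → Request k P → List (Fin k × P))
    (hfg : ∀ S r, Inv S → Good m S r (f S r) (g S r)) (σ : List (Request k P)) :
    ∀ past : List (Request k P), Inv (past.foldl f (S0 k P)) →
      (∀ C, below (past.foldl f (S0 k P)).phys C →
        Serves C σ (schedule (fun q r => g (q.foldl f (S0 k P)) r) past σ)) ∧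
      ∀ (X Y : Cache k P) (L : List (List (Fin k × P))), Serves X σ L →
        cost (schedule (fun q r => g (q.foldl f (S0 k P)) r) past σ) ≤
        m * cost L + Phi (past.foldl f (S0 k P)) + m * lev (past.foldl f (S0 k P)) Y +
          m * ham Y X := by
  induction σ with
  | nil =>
    intro past _
    refine ⟨fun C _ => trivial, fun X Y L _ => ?_⟩
    simp [schedule, cost]
  | cons r σ ih =>
    intro past hI
    obtain ⟨g1, g2, g3, g4⟩ := hfg _ r hI
    have e : (past ++ [r]).foldl f (S0 k P) = f (past.foldl f (S0 k P)) r := by simp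
    obtain ⟨i1, i2⟩ := ih (past ++ [r]) (e ▸ g1)
    rw [e] at i1 i2
    refine ⟨fun C hC => ⟨sat_below (g3 C hC) g2, i1 _ (g3 C hC)⟩, fun X Y L hL => ?_⟩
    cases L with
    | nil => exact absurd hL (by simp [Serves])
    | cons l L =>
      obtain ⟨s1, s2⟩ := hL
      obtain ⟨Y', hY'⟩ := g4 Y _ s1
      have j1 := i2 _ Y' L s2
      have j2 := Nat.mul_le_mul_left m (ham_retrieve Y l X)
      rw [Nat.mul_add] at j2
      have c1 : cost (l :: L) = l.length + cost L := by simp [cost]
      have c2 : cost (schedule (fun q r => g (q.foldl f (S0 k P)) r) past (r :: σ)) =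
          (g (past.foldl f (S0 k P)) r).length +
          cost (schedule (fun q r => g (q.foldl f (S0 k P)) r) (past ++ [r]) σ) := by
        simp [cost, schedule]
      rw [c1, c2, Nat.mul_add]
      omega

theorem upper (k : ℕ) (hk : 1 ≤ k) (P : Type) (C₀ : Cache k P) :
    ∃ A : OnlineAlg k P, Competitive C₀ A (2 * (k : ℝ) - 1) := by
  have h : ∀ (S : St k P) (r : Request k P), ∃ x : St k P × List (Fin k × P),
      Inv S → Good (2 * k - 1) S r x.1 x.2 := by
    intro S r
    by_cases hI : Inv S
    · obtain ⟨S', l, h⟩ := step_spec hk S hI r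
      exact ⟨(S', l), fun _ => h⟩
    · exact ⟨(S, []), fun h => absurd h hI⟩
  choose F hF using h
  have key := fun σ => run_spec (2 * k - 1) (fun S r => (F S r).1) (fun S r => (F S r).2) hF σ []
    inv_S0
  have hser := fun σ => (key σ).1 C₀ (fun _ _ h => by simp [S0, St.phys] at h)
  refine ⟨_, hser, (Phi (S0 k P) + (2 * k - 1) * lev (S0 k P) C₀ : ℕ), fun σ => ?_⟩
  have hne : {n | ∃ L, Serves C₀ σ L ∧ cost L = n}.Nonempty := ⟨_, _, hser σ, rfl⟩
  obtain ⟨L, hL, hc⟩ := Nat.sInf_mem hne
  have h1 := (key σ).2 C₀ C₀ L hL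
  rw [ham_self, hc] at h1
  have h3 : cost (schedule (fun q r => (F (q.foldl (fun S r => (F S r).1) (S0 k P)) r).2) [] σ)
      ≤ (2 * k - 1) * OPT C₀ σ + (Phi (S0 k P) + (2 * k - 1) * lev (S0 k P) C₀) := by
    unfold OPT
    simp only [List.foldl_nil] at h1
    omega
  have h4 : ((2 * k - 1 : ℕ) : ℝ) = 2 * (k : ℝ) - 1 := by
    rw [Nat.cast_sub (by omega)]; simp
  rw [← h4]
  exact_mod_cast h3

end Pool.Agent.P.MP_dee2e2_lc.X
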